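import Pool.Agent.Helper63.SQS.Table2

/-!
# MP_822206_co: the compact table for the prime 103
-/

set_option autoImplicit false

namespace Pool.Agent.Helper63.SQS.P103

open Pool.Agent.Helper88.SQS Pool.Agent.Helper63.SQS

/-- the table -/
def tab : Tab2 where
  q := 103
  N := 17
  e := 18
  f := 34
  wd := 7
  th := 56
  pT := 5033989521230935672084654321194156998590022254287273800911367770534709014147999854998494277496164886173455803103107076249731351393973432234176208804580766225436293934922319489455141685665847657729046643588042001864960
  pF := 841790657286035360592763013410361668185657462180040055855431100678135653766390080834994473456085560498783224078270883815664941758237963449936424113380568957093296083963664875100981656182754128364014679056926413985566
  iT := 152955730265949879065388293125227518354099173529865825601347049295932948093865778448584941514809606527133948678339695927969486856320234223039697367119646493777200296295825858761841275708100622244784285747083864354317783215774286270328281984531188343278127599432019191563141881916299012601877662675171613607133071127657978997303561267401167541941150148280240208516618306387659996053930312101233405721484706418190301472219460847705619042995163959565150907941832054462282869638981764397831673012908921226251804001186805242825837829487966128595467414349636220956651243338977551652303195142877121118414996015081977101336049273410598153700298555734562796217127840397076494141948389905433390247347430004542000313631370664627222389896368788366329906616770175462178581698243278087441085502541691855505727535351198773622323599798076842541397949643394158291538858022465811540113980939228557140775651682330200533931756376597984607399341849229446931791101567037274903018753457849117881875344818220564653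
  iF := 13766015723935489115884946386892304451475591974642130742410442685655857582164964386358962849595645671802978897763788954038809715257439088448197175135781833480371729258442608554695570874992727568479149464821298069722106587769912361458774580398728601240671488696627771749808677642460433802640478212743988259426683331997106821136810148251229790020779633219206096180396742966528856705871276568405315597445747341023310536852961338588617544935827800099315819314102568719137954344243563610798838416377031644538205962286102790475175834280496210186998250780251647412381037383587948560100087967688735903033485207401023521556073546031954713563357344770622362138959418957583347714447509010101695222457871181113671905761949978091931507771868469027253541501394906255764057752053913595107004948977354119744257189102212413323986203594432197324581477762716394105012954015009540872926766116843343948653212641806365126755663179907230535487860106784911309121370412180361966699826978198647692161422506714451411084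

theorem ok : tab.Ok where
  prime := by
    show Nat.Prime 103
    norm_num
  t := by decide +kernel
  f := by decide +kernel
  n := by decide +kernel

theorem good (d : ℕ) (hd : 1 ≤ d) : Good (103 ^ d + 1) := Tab2.good ok d hd

end Pool.Agent.Helper63.SQS.P103
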