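import Pool.Agent.Helper88.SQS.Final

/-!
# MP_822206_co: base colourings from tables (any prime `q`, `q % 12 = 7`)
-/

set_option autoImplicit false

namespace Pool.Agent.Helper63.SQS

open Pool.Agent.Helper88.SQS

/-- The data: the prime `q`, the width `wd` (in bits) of one entry, a root `th` of `X² + X + 1`, the bit
mask of the nonzero squares, the tables of the two colourings, the four inverse tables. -/
structure Tab where
  q : ℕ
  wd : ℕ
  th : ℕ
  mask : ℕ
  tT : ℕ
  tF : ℕ
  iTT : ℕ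
  iTF : ℕ
  iFT : ℕ
  iFF : ℕ

namespace Tab

variable (T : Tab)

/-- `z` is a nonzero square modulo `q` -/
def sq (z : ℕ) : Bool := (T.mask >>> z) % 2 == 1

/-- square up to the sign `δ` -/
def sqs (δ : Bool) (z : ℕ) : Bool := if δ then T.sq z else T.sq ((T.q - z) % T.q)

/-- the colour of the block `x + w C` -/
def colN (δ : Bool) (x w : ℕ) : ℕ :=
  ((if δ then T.tT else T.tF) >>> (T.wd * (T.q * x + w))) % 2 ^ T.wd

/-- the number `w` of the block of colour `c` and orientation `o` through the point `y` -/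
def invN (δ o : Bool) (c y : ℕ) : ℕ :=
  ((if δ then (if o then T.iTT else T.iTF) else (if o then T.iFT else T.iFF)) >>>
    (T.wd * (T.q * c + y))) % 2 ^ T.wd

/-- all properties of one entry `c` of the table -/
def chk0 (δ : Bool) (x w c : ℕ) : Bool :=
  (c < T.q) && (T.colN δ x ((T.th * w) % T.q) == c) &&
      (T.invN δ (T.sq w) c ((x + w) % T.q) == w) &&
      (if c == 0 then T.sqs δ ((x + w) % T.q)
        else T.sqs δ c && !(c == (x + w) % T.q))

/-- all properties of one entry of the table -/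
def chk1 (δ : Bool) (x w : ℕ) : Bool :=
  (w == 0) || T.chk0 δ x w (T.colN δ x w)

/-- all properties of the table -/
def chk (δ : Bool) : Bool :=
  (List.range T.q).all fun x => (List.range T.q).all fun w => T.chk1 δ x w

/-- squares -/
def chkQ : Bool :=
  (List.range T.q).all fun z =>
    (z == 0 || (T.sq z || T.sq ((T.q - z) % T.q))) && !(T.sq z && T.sq ((T.q - z) % T.q)) &&
    (!(T.sq z) || (List.range T.q).any fun r => !(r == 0) && (r * r) % T.q == z) &&
    ((List.range T.q).all fun r => r == 0 || (T.sq ((r * r * z) % T.q) == T.sq z))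

/-- numbers -/
def chkN : Bool :=
  (T.q % 6 == 1) && decide (7 ≤ T.q) && ((T.th * T.th + T.th + 1) % T.q == 0) && T.sq 1

/-- everything -/
structure Ok : Prop where
  prime : T.q.Prime
  t : T.chk true = true
  f : T.chk false = true
  sq : T.chkQ = true
  n : T.chkN = true

variable {T}

theorem chk_get (h : T.Ok) (δ : Bool) {x w : ℕ} (hx : x < T.q) (hw : w < T.q) :
    T.chk1 δ x w = true := by
  have h : T.chk δ = true := by
    cases δ
    · exact h.f
    · exact h.t
  unfold chk at h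
  rw [List.all_eq_true] at h
  have h2 := h x (List.mem_range.2 hx)
  rw [List.all_eq_true] at h2
  exact h2 w (List.mem_range.2 hw)

/-- the properties of one entry -/
theorem entry (h : T.Ok) (δ : Bool) {x w : ℕ} (hx : x < T.q) (hw : w < T.q) (h0 : w ≠ 0) :
    T.colN δ x w < T.q ∧ T.colN δ x ((T.th * w) % T.q) = T.colN δ x w ∧
      T.invN δ (T.sq w) (T.colN δ x w) ((x + w) % T.q) = w ∧
      (T.colN δ x w = 0 → T.sqs δ ((x + w) % T.q) = true) ∧
      (T.colN δ x w ≠ 0 → T.sqs δ (T.colN δ x w) = true ∧ T.colN δ x w ≠ (x + w) % T.q) := by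
  have h := chk_get h δ hx hw
  unfold chk1 chk0 at h
  have hw0 : (w == 0) = false := by simpa using h0
  rw [hw0, Bool.false_or, Bool.and_eq_true, Bool.and_eq_true, Bool.and_eq_true] at h
  obtain ⟨⟨⟨h1, h2⟩, h3⟩, h4⟩ := h
  refine ⟨by simpa using h1, by simpa using h2, by simpa using h3, ?_, ?_⟩
  · intro hc
    have hc' : (T.colN δ x w == 0) = true := by simpa using hc
    rw [hc'] at h4
    simpa using h4
  · intro hc
    have hc' : (T.colN δ x w == 0) = false := by simpa using hc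
    rw [hc'] at h4
    simp only [Bool.false_eq_true, if_false, Bool.and_eq_true] at h4
    exact ⟨h4.1, by simpa using h4.2⟩

theorem getQ (h : T.Ok) {z : ℕ} (hz : z < T.q) :
    (z ≠ 0 → T.sq z = true ∨ T.sq ((T.q - z) % T.q) = true) ∧
      ¬ (T.sq z = true ∧ T.sq ((T.q - z) % T.q) = true) ∧
      (T.sq z = true → ∃ r, r < T.q ∧ r ≠ 0 ∧ (r * r) % T.q = z) ∧
      (∀ r, r < T.q → r ≠ 0 → T.sq ((r * r * z) % T.q) = T.sq z) := by
  have h := h.sq
  unfold chkQ at h
  rw [List.all_eq_true] at h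
  have h2 := h z (List.mem_range.2 hz)
  rw [Bool.and_eq_true, Bool.and_eq_true, Bool.and_eq_true] at h2
  obtain ⟨⟨⟨h3, h4⟩, h5⟩, h6⟩ := h2
  refine ⟨?_, ?_, ?_, ?_⟩
  · intro h0
    rw [Bool.or_eq_true, Bool.or_eq_true] at h3
    rcases h3 with h3 | h3
    · exact absurd (by simpa using h3) h0
    · exact h3
  · rintro ⟨ha, hb⟩
    rw [ha, hb] at h4
    simp at h4
  · intro ha
    rw [ha] at h5
    simp only [Bool.not_true, Bool.false_or, List.any_eq_true, List.mem_range,
      Bool.and_eq_true] at h5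
    obtain ⟨r, hr, hr0, hr1⟩ := h5
    exact ⟨r, hr, by simpa using hr0, by simpa using hr1⟩
  · intro r hr hr0
    rw [List.all_eq_true] at h6
    have h7 := h6 r (List.mem_range.2 hr)
    rw [Bool.or_eq_true] at h7
    rcases h7 with h7 | h7
    · exact absurd (by simpa using h7) hr0
    · simpa using h7

theorem getN (h : T.Ok) : T.q % 6 = 1 ∧ 7 ≤ T.q ∧ (T.th * T.th + T.th + 1) % T.q = 0 ∧
    T.sq 1 = true := by
  have h := h.n
  unfold chkN at h
  rw [Bool.and_eq_true, Bool.and_eq_true, Bool.and_eq_true] at h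
  obtain ⟨⟨⟨h1, h2⟩, h3⟩, h4⟩ := h
  exact ⟨by simpa using h1, by simpa using h2, by simpa using h3, h4⟩

variable [Fact T.q.Prime]

theorem val_ne {z : ZMod T.q} (hz : z ≠ 0) : z.val ≠ 0 := by
  intro h
  exact hz ((ZMod.val_eq_zero z).1 h)

theorem sq_of_SQ (hT : T.Ok) {z : ZMod T.q} (h : SQ z) : T.sq z.val = true := by
  obtain ⟨r, hr, rfl⟩ := h
  obtain ⟨_, h7, _, h1'⟩ := getN hT
  have h1 := (getQ hT (z := 1) (by omega)).2.2.2 r.val (ZMod.val_lt r) (val_ne hr)
  rw [mul_one] at h1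
  rw [pow_two, ZMod.val_mul, h1]
  exact h1'

theorem SQ_of_sq (hT : T.Ok) {z : ZMod T.q} (h : T.sq z.val = true) : SQ z := by
  obtain ⟨r, hr, hr0, hr1⟩ := (getQ hT (ZMod.val_lt z)).2.2.1 h
  refine ⟨(r : ZMod T.q), ?_, ?_⟩
  · intro h0
    have h2 : ((r : ZMod T.q)).val = r := ZMod.val_natCast_of_lt hr
    rw [h0, ZMod.val_zero] at h2
    exact hr0 h2.symm
  · have h3 : ((z.val : ℕ) : ZMod T.q) = z := ZMod.natCast_zmod_val z
    rw [← h3, ← hr1, ZMod.natCast_mod, Nat.cast_mul, pow_two]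

theorem SQ_iff (hT : T.Ok) {z : ZMod T.q} : SQ z ↔ T.sq z.val = true :=
  ⟨sq_of_SQ hT, SQ_of_sq hT⟩

theorem SQ_neg_iff (hT : T.Ok) {z : ZMod T.q} :
    SQ (-z) ↔ T.sq ((T.q - z.val) % T.q) = true := by
  rw [SQ_iff hT, ZMod.neg_val']

theorem S_iff (hT : T.Ok) {δ : Bool} {z : ZMod T.q} : S δ z ↔ T.sqs δ z.val = true := by
  cases δ
  · show SQ (sg (ZMod T.q) false * z) ↔ _
    have : sg (ZMod T.q) false * z = -z := by simp [sg]
    rw [this, SQ_neg_iff hT]
    simp [sqs]
  · show SQ (sg (ZMod T.q) true * z) ↔ _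
    have : sg (ZMod T.q) true * z = z := by simp [sg]
    rw [this, SQ_iff hT]
    simp [sqs]

/-- the hypotheses on the field -/
theorem fld (hT : T.Ok) : Fld (ZMod T.q) where
  or := by
    intro z hz
    rw [SQ_iff hT, SQ_neg_iff hT]
    exact (getQ hT (ZMod.val_lt z)).1 (val_ne hz)
  nand := by
    intro z h1 h2
    rw [SQ_iff hT] at h1
    rw [SQ_neg_iff hT] at h2
    exact (getQ hT (ZMod.val_lt z)).2.1 ⟨h1, h2⟩

/-- the colouring -/
def colZ (T : Tab) (δ : Bool) (x w : ZMod T.q) : ZMod T.q := ((T.colN δ x.val w.val : ℕ) : ZMod T.q)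

theorem colZ_val (hT : T.Ok) (δ : Bool) (x : ZMod T.q) {w : ZMod T.q} (hw : w ≠ 0) :
    (colZ T δ x w).val = T.colN δ x.val w.val :=
  ZMod.val_natCast_of_lt (entry hT δ (ZMod.val_lt x) (ZMod.val_lt w) (val_ne hw)).1

theorem sq_ratio (hT : T.Ok) {w w' : ZMod T.q} (hw : w ≠ 0) (h : SQ (w' * w⁻¹)) :
    T.sq w'.val = T.sq w.val := by
  obtain ⟨r, hr, h1⟩ := h
  have h2 : w' = r * r * w := by
    have : w' = w' * w⁻¹ * w := by
      rw [mul_assoc, inv_mul_cancel₀ hw, mul_one]
    rw [this, h1, pow_two]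
  have h3 := (getQ hT (ZMod.val_lt w)).2.2.2 r.val (ZMod.val_lt r) (val_ne hr)
  have h4 : (r * r * w : ZMod T.q).val = (r.val * r.val * w.val) % T.q := by
    rw [ZMod.val_mul, ZMod.val_mul, Nat.mod_mul_mod]
  rw [h2, h4, h3]

/-- **The base colourings given by a table.** -/
def base (hT : T.Ok) : Base (ZMod T.q) (T.th : ZMod T.q) where
  col := colZ T
  rot := by
    intro δ x w hw
    unfold colZ
    have h : ((T.th : ZMod T.q) * w).val = (T.th * w.val) % T.q := by
      rw [ZMod.val_mul, ZMod.val_natCast, Nat.mod_mul_mod]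
    rw [h, (entry hT δ (ZMod.val_lt x) (ZMod.val_lt w) (val_ne hw)).2.1]
  inj := by
    intro δ x w x' w' hw hw' hr hc he
    have h1 : T.colN δ x.val w.val = T.colN δ x'.val w'.val := by
      rw [← colZ_val hT δ x hw, ← colZ_val hT δ x' hw', hc]
    have h2 : (x.val + w.val) % T.q = (x'.val + w'.val) % T.q := by
      rw [← ZMod.val_add, ← ZMod.val_add, he]
    have h3 := (entry hT δ (ZMod.val_lt x) (ZMod.val_lt w) (val_ne hw)).2.2.1
    have h4 := (entry hT δ (ZMod.val_lt x') (ZMod.val_lt w') (val_ne hw')).2.2.1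
    rw [sq_ratio hT hw hr, ← h1, ← h2, h3] at h4
    have h5 : w = w' := ZMod.val_injective T.q h4
    refine ⟨?_, h5⟩
    rw [h5] at he
    exact add_right_cancel he
  miss := by
    intro δ x w hw hc
    have h := entry hT δ (ZMod.val_lt x) (ZMod.val_lt w) (val_ne hw)
    have hc' : T.colN δ x.val w.val ≠ 0 := by
      rw [← colZ_val hT δ x hw]
      exact val_ne hc
    obtain ⟨h1, h2⟩ := h.2.2.2.2 hc'
    refine ⟨?_, ?_⟩
    · rw [S_iff hT, colZ_val hT δ x hw]
      exact h1
    · intro h3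
      apply h2
      rw [← colZ_val hT δ x hw, h3, ZMod.val_add]
  short := by
    intro δ x w hw hc
    have h := entry hT δ (ZMod.val_lt x) (ZMod.val_lt w) (val_ne hw)
    have hc' : T.colN δ x.val w.val = 0 := by
      rw [← colZ_val hT δ x hw, hc, ZMod.val_zero]
    rw [S_iff hT, ZMod.val_add]
    exact h.2.2.2.1 hc'

omit [Fact T.q.Prime] in
/-- **The family of orders given by a table.** -/
theorem good (hT : T.Ok) (d : ℕ) (hd : 1 ≤ d) : Good (T.q ^ d + 1) := by
  classical
  have hp : Fact T.q.Prime := ⟨hT.prime⟩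
  obtain ⟨h6, h7, hth, _⟩ := getN hT
  have : Finite (GaloisField T.q d) := inferInstance
  have : Fintype (GaloisField T.q d) := Fintype.ofFinite _
  have hcard : Fintype.card (GaloisField T.q d) = T.q ^ d := by
    rw [← Nat.card_eq_fintype_card]
    exact GaloisField.card T.q d (by omega)
  have h6' : T.q ^ d % 6 = 1 := by
    rw [Nat.pow_mod, h6]
    norm_num
  have h7' : 7 ≤ T.q ^ d := by
    calc 7 ≤ T.q ^ 1 := by rwa [pow_one]
      _ ≤ T.q ^ d := Nat.pow_le_pow_right (by omega) hd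
  have root : (T.th : ZMod T.q) ^ 2 + (T.th : ZMod T.q) + 1 = 0 := by
    have h : ((T.th * T.th + T.th + 1 : ℕ) : ZMod T.q) = 0 := by
      rw [ZMod.natCast_eq_zero_iff]
      exact Nat.dvd_of_mod_eq_zero hth
    push_cast at h
    rw [pow_two]
    exact h
  have three : (3 : ZMod T.q) ≠ 0 := by
    intro h
    have h' : ((3 : ℕ) : ZMod T.q) = 0 := by exact_mod_cast h
    rw [ZMod.natCast_eq_zero_iff] at h'
    have := Nat.le_of_dvd (by norm_num) h'
    omega
  have := good_of (K := ZMod T.q) (F := GaloisField T.q d) (fld hT) (T.th : ZMod T.q)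
    root three (base hT) (by rw [hcard]; exact h6') (by rw [hcard]; exact h7')
  rw [hcard] at this
  exact this

end Tab

end Pool.Agent.Helper63.SQS
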