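import Pool.Agent.Helper88.SQS.Final

/-!
# MP_822206_co: base colourings from compact tables (equivariant colourings)

`q = 6 N + 1` prime, `N` odd. Every `w ≠ 0` is `s h c` with `s = w^(3N) = ± 1`, `h = w^e`, `h^N = 1`,
`c = w^f`, `c^3 = 1`. The colouring is `col true x w = h * phi_s (x / h)`,
`col false x w = - col true (-x) (-w)`.
-/

set_option autoImplicit false

namespace Pool.Agent.Helper63.SQS

open Pool.Agent.Helper88.SQS

/-- The data: the prime `q = 6 N + 1`, the exponents `e`, `f`, the width `wd` (in bits) of one entry, a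
root `th` of `X² + X + 1`, the tables of `phi_+` and `phi_-` and two inverse tables. -/
structure Tab2 where
  q : ℕ
  N : ℕ
  e : ℕ
  f : ℕ
  wd : ℕ
  th : ℕ
  pT : ℕ
  pF : ℕ
  iT : ℕ
  iF : ℕ

namespace Tab2

variable (T : Tab2)

/-- the function `phi_s` -/
def phiN (s : Bool) (X : ℕ) : ℕ := ((if s then T.pT else T.pF) >>> (T.wd * X)) % 2 ^ T.wd

/-- the inverse table -/
def invN (s : Bool) (a k : ℕ) : ℕ :=
  ((if s then T.iT else T.iF) >>> ((T.wd + 2) * (T.q * a + k))) % 2 ^ (T.wd + 2)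

/-- the point `X + s θ^j` -/
def ptN (s : Bool) (X j : ℕ) : ℕ :=
  (X + (if s then T.th ^ j else (T.q - 1) * T.th ^ j)) % T.q

/-- the class of `v = p ^ N` -/
def cls (v : ℕ) : ℕ := if v == 1 then 0 else if v == T.th then 1 else 2

/-- all properties of one entry `p`, with the point `y` -/
def chk0 (s : Bool) (X j p y : ℕ) : Bool :=
  if p == 0 then (y ^ (3 * T.N) % T.q == 1) && (T.invN s 3 (y ^ T.N % T.q) == 3 * X + j)
  else decide (p < T.q) && (p ^ (3 * T.N) % T.q == 1) && !(p == y) &&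
    (T.invN s (T.cls (p ^ T.N % T.q)) (y * p ^ (T.q - 2) % T.q) == 3 * X + j)

/-- all properties of the table -/
def chk (s : Bool) : Bool :=
  (List.range T.q).all fun X => (List.range 3).all fun j =>
    T.chk0 s X j (T.phiN s X) (T.ptN s X j)

/-- numbers -/
def chkN : Bool :=
  (T.q == 6 * T.N + 1) && (T.N % 2 == 1) && decide (1 ≤ T.N) && (T.e % 6 == 0) &&
    (T.f % (2 * T.N) == 0) && ((3 * T.N + T.e + T.f) % (6 * T.N) == 1) &&
    ((T.th * T.th + T.th + 1) % T.q == 0)

/-- everything -/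
structure Ok : Prop where
  prime : T.q.Prime
  t : T.chk true = true
  f : T.chk false = true
  n : T.chkN = true

variable {T}

/-- the facts on the numbers -/
structure Nums (T : Tab2) : Prop where
  q : T.q = 6 * T.N + 1
  odd : T.N % 2 = 1
  pos : 1 ≤ T.N
  e : T.e % 6 = 0
  f : T.f % (2 * T.N) = 0
  sum : (3 * T.N + T.e + T.f) % (6 * T.N) = 1
  th : (T.th * T.th + T.th + 1) % T.q = 0

theorem nums (h : T.Ok) : Nums T := by
  have h := h.n
  unfold chkN at h
  simp only [Bool.and_eq_true, beq_iff_eq, decide_eq_true_eq] at h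
  obtain ⟨⟨⟨⟨⟨⟨h1, h2⟩, h3⟩, h4⟩, h5⟩, h6⟩, h7⟩ := h
  exact ⟨h1, h2, h3, h4, h5, h6, h7⟩

theorem chk_get (h : T.Ok) (s : Bool) {X j : ℕ} (hX : X < T.q) (hj : j < 3) :
    T.chk0 s X j (T.phiN s X) (T.ptN s X j) = true := by
  have h : T.chk s = true := by
    cases s
    · exact h.f
    · exact h.t
  unfold chk at h
  rw [List.all_eq_true] at h
  have h2 := h X (List.mem_range.2 hX)
  rw [List.all_eq_true] at h2
  exact h2 j (List.mem_range.2 hj)

section field

variable [Fact T.q.Prime]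

/-- the root -/
def θZ (T : Tab2) : ZMod T.q := (T.th : ZMod T.q)

/-- the sign -/
def sZ (T : Tab2) (s : Bool) : ZMod T.q := if s then 1 else -1

/-- the function `phi_s` -/
def phiZ (T : Tab2) (s : Bool) (X : ZMod T.q) : ZMod T.q := ((T.phiN s X.val : ℕ) : ZMod T.q)

theorem theta_root (h : T.Ok) : (θZ T) ^ 2 + θZ T + 1 = 0 := by
  have h := (nums h).th
  have h : ((T.th * T.th + T.th + 1 : ℕ) : ZMod T.q) = 0 := by
    rw [ZMod.natCast_eq_zero_iff]
    exact Nat.dvd_of_mod_eq_zero h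
  push_cast at h
  unfold θZ
  rw [pow_two]
  exact h

theorem theta_cube (h : T.Ok) : (θZ T) ^ 3 = 1 := by
  linear_combination (θZ T - 1) * theta_root h

theorem val_pow_eq (y : ZMod T.q) (n : ℕ) : (y ^ n).val = y.val ^ n % T.q := by
  conv_lhs => rw [← ZMod.natCast_zmod_val y]
  rw [← Nat.cast_pow, ZMod.val_natCast]

theorem val_mul_pow_eq (y p : ZMod T.q) (n : ℕ) : (y * p ^ n).val = y.val * p.val ^ n % T.q := by
  conv_lhs => rw [← ZMod.natCast_zmod_val y, ← ZMod.natCast_zmod_val p]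
  rw [← Nat.cast_pow, ← Nat.cast_mul, ZMod.val_natCast]

theorem eq_one_of (hT : T.Ok) {y : ZMod T.q} {n : ℕ} (h : y.val ^ n % T.q = 1) : y ^ n = 1 := by
  have h1 : ((y.val ^ n : ℕ) : ZMod T.q) = ((1 : ℕ) : ZMod T.q) := by
    rw [ZMod.natCast_eq_natCast_iff']
    rw [h, Nat.mod_eq_of_lt hT.prime.one_lt]
  rw [Nat.cast_pow, ZMod.natCast_zmod_val, Nat.cast_one] at h1
  exact h1

theorem pt_val (hT : T.Ok) (s : Bool) (X : ZMod T.q) (j : ℕ) :
    (X + sZ T s * (θZ T) ^ j).val = T.ptN s X.val j := by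
  have h1 : (X + sZ T s * (θZ T) ^ j) =
      ((X.val + (if s then T.th ^ j else (T.q - 1) * T.th ^ j) : ℕ) : ZMod T.q) := by
    rw [Nat.cast_add, ZMod.natCast_zmod_val]
    congr 1
    cases s
    · have : 1 ≤ T.q := hT.prime.one_lt.le
      simp [sZ, θZ, Nat.cast_sub this]
    · simp [sZ, θZ]
  rw [h1, ZMod.val_natCast]
  rfl

/-- the key of a pair -/
def key (T : Tab2) (p y : ZMod T.q) : ℕ × ℕ :=
  if p = 0 then (3, (y ^ T.N).val) else (T.cls (p ^ T.N).val, (y * p ^ (T.q - 2)).val)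

/-- the properties of one entry -/
theorem entry (hT : T.Ok) (s : Bool) (X : ZMod T.q) {j : ℕ} (hj : j < 3) :
    (phiZ T s X = 0 → (X + sZ T s * (θZ T) ^ j) ^ (3 * T.N) = 1) ∧
    (phiZ T s X ≠ 0 → (phiZ T s X) ^ (3 * T.N) = 1 ∧ phiZ T s X ≠ X + sZ T s * (θZ T) ^ j) ∧
    T.invN s (key T (phiZ T s X) (X + sZ T s * (θZ T) ^ j)).1
      (key T (phiZ T s X) (X + sZ T s * (θZ T) ^ j)).2 = 3 * X.val + j := by
  have h := chk_get hT s (ZMod.val_lt X) hj
  rw [← pt_val hT s X j] at h
  set y := X + sZ T s * (θZ T) ^ j with hy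
  unfold chk0 at h
  by_cases hp : T.phiN s X.val = 0
  · rw [hp] at h
    simp only [beq_self_eq_true, if_true, Bool.and_eq_true, beq_iff_eq] at h
    obtain ⟨h1, h2⟩ := h
    have h0 : phiZ T s X = 0 := by
      unfold phiZ
      rw [hp, Nat.cast_zero]
    refine ⟨fun _ => eq_one_of hT h1, fun h => absurd h0 h, ?_⟩
    unfold key
    rw [if_pos h0, val_pow_eq]
    exact h2
  · have hp' : (T.phiN s X.val == 0) = false := by simpa using hp
    rw [hp'] at h
    simp only [Bool.false_eq_true, if_false, Bool.and_eq_true, beq_iff_eq, decide_eq_true_eq,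
      Bool.not_eq_true', beq_eq_false_iff_ne] at h
    obtain ⟨⟨⟨h1, h2⟩, h3⟩, h4⟩ := h
    have hv : (phiZ T s X).val = T.phiN s X.val := ZMod.val_natCast_of_lt h1
    have h0 : phiZ T s X ≠ 0 := by
      intro h0
      rw [h0, ZMod.val_zero] at hv
      exact hp hv.symm
    rw [← hv] at h2 h3 h4
    refine ⟨fun h => absurd h h0, fun _ => ⟨eq_one_of hT h2, fun h5 => h3 (by rw [h5])⟩, ?_⟩
    unfold key
    rw [if_neg h0, val_pow_eq, val_mul_pow_eq]
    exact h4

theorem inj_key (hT : T.Ok) (s : Bool) {X X' : ZMod T.q} {j j' : ℕ} (hj : j < 3) (hj' : j' < 3)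
    (h : key T (phiZ T s X) (X + sZ T s * (θZ T) ^ j) =
      key T (phiZ T s X') (X' + sZ T s * (θZ T) ^ j')) : X = X' ∧ j = j' := by
  have h1 := (entry hT s X hj).2.2
  have h2 := (entry hT s X' hj').2.2
  rw [h, h2] at h1
  have h3 : X'.val = X.val := by omega
  refine ⟨(ZMod.val_injective T.q h3).symm, by omega⟩

theorem pow6 (hT : T.Ok) {w : ZMod T.q} (hw : w ≠ 0) : w ^ (6 * T.N) = 1 := by
  have h := ZMod.pow_card_sub_one_eq_one hw
  have h1 : T.q - 1 = 6 * T.N := by
    have := (nums hT).q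
    omega
  rwa [h1] at h

theorem pow_sub_two (hT : T.Ok) {p : ZMod T.q} (hp : p ≠ 0) : p ^ (T.q - 2) = p⁻¹ := by
  have h := ZMod.pow_card_sub_one_eq_one hp
  have h2 : 2 ≤ T.q := hT.prime.two_le
  have h1 : T.q - 1 = (T.q - 2) + 1 := by omega
  rw [h1, pow_succ] at h
  exact eq_inv_of_mul_eq_one_left h

/-- Euler's criterion -/
theorem SQ_iff (hT : T.Ok) {z : ZMod T.q} (hz : z ≠ 0) : SQ z ↔ z ^ (3 * T.N) = 1 := by
  have h := ZMod.euler_criterion T.q hz
  have h1 : T.q / 2 = 3 * T.N := by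
    have := (nums hT).q
    omega
  rw [h1] at h
  rw [← h]
  constructor
  · rintro ⟨r, _, rfl⟩
    exact ⟨r, by ring⟩
  · rintro ⟨r, rfl⟩
    exact ⟨r, fun h0 => hz (by rw [h0, mul_zero]), by ring⟩

theorem one_ne_neg_one (hT : T.Ok) : (-1 : ZMod T.q) ≠ 1 := by
  intro h
  have h2 : ((2 : ℕ) : ZMod T.q) = 0 := by
    push_cast
    linear_combination -h
  rw [ZMod.natCast_eq_zero_iff] at h2
  have h3 := Nat.le_of_dvd (by norm_num) h2
  have h4 := (nums hT).q
  have h5 := (nums hT).pos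
  omega

theorem neg_one_pow_odd (hT : T.Ok) : (-1 : ZMod T.q) ^ (3 * T.N) = -1 := by
  apply Odd.neg_one_pow
  rw [Nat.odd_iff]
  have := (nums hT).odd
  omega

theorem pow3_cases (hT : T.Ok) {w : ZMod T.q} (hw : w ≠ 0) :
    w ^ (3 * T.N) = 1 ∨ w ^ (3 * T.N) = -1 := by
  have h := pow6 hT hw
  have h1 : (w ^ (3 * T.N)) * (w ^ (3 * T.N)) = 1 := by
    rw [← pow_add, ← h]
    congr 1
    ring
  exact mul_self_eq_one_iff.1 h1

/-- the hypotheses on the field -/
theorem fld (hT : T.Ok) : Fld (ZMod T.q) where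
  or := by
    intro z hz
    rw [SQ_iff hT hz, SQ_iff hT (neg_ne_zero.2 hz)]
    rcases pow3_cases hT hz with h | h
    · exact Or.inl h
    · right
      rw [neg_eq_neg_one_mul, mul_pow, neg_one_pow_odd hT, h]
      ring
  nand := by
    intro z h1 h2
    have hz : z ≠ 0 := h1.ne
    rw [SQ_iff hT hz] at h1
    rw [SQ_iff hT (neg_ne_zero.2 hz), neg_eq_neg_one_mul, mul_pow, neg_one_pow_odd hT, h1,
      mul_one] at h2
    exact one_ne_neg_one hT h2

/-- the sign of `w` -/
def sB (T : Tab2) (w : ZMod T.q) : Bool := decide (w ^ (3 * T.N) = 1)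

/-- the part of order `N` -/
def hZ (T : Tab2) (w : ZMod T.q) : ZMod T.q := w ^ T.e

/-- the colouring -/
def colT (T : Tab2) (x w : ZMod T.q) : ZMod T.q := hZ T w * phiZ T (sB T w) (x * (hZ T w)⁻¹)

theorem hZ_ne {w : ZMod T.q} (hw : w ≠ 0) : hZ T w ≠ 0 := pow_ne_zero _ hw

theorem hZ_pow (hT : T.Ok) {w : ZMod T.q} (hw : w ≠ 0) : (hZ T w) ^ T.N = 1 := by
  unfold hZ
  rw [← pow_mul]
  obtain ⟨k, hk⟩ := Nat.dvd_of_mod_eq_zero (nums hT).e
  rw [hk, show 6 * k * T.N = (6 * T.N) * k by ring, pow_mul, pow6 hT hw, one_pow]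

theorem hZ_SQ (hT : T.Ok) {w : ZMod T.q} (hw : w ≠ 0) : SQ (hZ T w) := by
  obtain ⟨k, hk⟩ := Nat.dvd_of_mod_eq_zero (nums hT).e
  refine ⟨w ^ (3 * k), pow_ne_zero _ hw, ?_⟩
  unfold hZ
  rw [hk, ← pow_mul]
  congr 1
  ring

theorem sB_eq (hT : T.Ok) {w : ZMod T.q} (hw : w ≠ 0) : w ^ (3 * T.N) = sZ T (sB T w) := by
  unfold sB sZ
  rcases pow3_cases hT hw with h | h
  · simp [h]
  · have : ¬ (w ^ (3 * T.N) = 1) := by
      rw [h]
      exact one_ne_neg_one hT
    simp only [this, decide_false]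
    rw [h]
    simp

theorem cube_cases (hT : T.Ok) {c : ZMod T.q} (hc : c ^ 3 = 1) : ∃ j, j < 3 ∧ c = (θZ T) ^ j := by
  have h := theta_root hT
  have h1 : (c - 1) * ((c - θZ T) * (c - (θZ T) ^ 2)) = 0 := by
    have h3 := theta_cube hT
    have : (c - 1) * ((c - θZ T) * (c - (θZ T) ^ 2)) = c ^ 3 - (1 + θZ T + (θZ T) ^ 2) * c ^ 2 +
        (θZ T + (θZ T) ^ 2 + (θZ T) ^ 3) * c - (θZ T) ^ 3 := by ring
    rw [this, h3, hc]
    linear_combination (-c ^ 2 + c) * h
  rcases mul_eq_zero.1 h1 with h2 | h2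
  · exact ⟨0, by norm_num, by rw [pow_zero]; exact sub_eq_zero.1 h2⟩
  · rcases mul_eq_zero.1 h2 with h3 | h3
    · exact ⟨1, by norm_num, by rw [pow_one]; exact sub_eq_zero.1 h3⟩
    · exact ⟨2, by norm_num, sub_eq_zero.1 h3⟩

theorem decomp (hT : T.Ok) {w : ZMod T.q} (hw : w ≠ 0) :
    ∃ j, j < 3 ∧ w = hZ T w * (sZ T (sB T w) * (θZ T) ^ j) := by
  have hc : (w ^ T.f) ^ 3 = 1 := by
    obtain ⟨k, hk⟩ := Nat.dvd_of_mod_eq_zero (nums hT).f
    rw [← pow_mul, hk, show 2 * T.N * k * 3 = (6 * T.N) * k by ring, pow_mul, pow6 hT hw, one_pow]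
  obtain ⟨j, hj, hj'⟩ := cube_cases hT hc
  refine ⟨j, hj, ?_⟩
  rw [← hj', ← sB_eq hT hw]
  unfold hZ
  rw [← pow_add, ← pow_add]
  have h1 : T.e + (3 * T.N + T.f) = 6 * T.N * ((3 * T.N + T.e + T.f) / (6 * T.N)) + 1 := by
    have h2 := (nums hT).sum
    have h3 := Nat.div_add_mod (3 * T.N + T.e + T.f) (6 * T.N)
    rw [h2] at h3
    omega
  rw [h1, pow_succ, pow_mul, pow6 hT hw, one_pow, one_mul]

theorem rotT (hT : T.Ok) (x w : ZMod T.q) : colT T x (θZ T * w) = colT T x w := by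
  have h1 : hZ T (θZ T * w) = hZ T w := by
    unfold hZ
    obtain ⟨k, hk⟩ := Nat.dvd_of_mod_eq_zero (nums hT).e
    rw [mul_pow]
    have : (θZ T) ^ T.e = 1 := by
      rw [hk, show 6 * k = 3 * (2 * k) by ring, pow_mul, theta_cube hT, one_pow]
    rw [this, one_mul]
  have h2 : sB T (θZ T * w) = sB T w := by
    unfold sB
    rw [mul_pow, pow_mul (θZ T), theta_cube hT, one_pow, one_mul]
  unfold colT
  rw [h1, h2]

theorem injT (hT : T.Ok) {x w x' w' : ZMod T.q} (hw : w ≠ 0) (hw' : w' ≠ 0) (hr : SQ (w' * w⁻¹))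
    (hc : colT T x w = colT T x' w') (he : x + w = x' + w') : x = x' ∧ w = w' := by
  have hs : sB T w' = sB T w := by
    obtain ⟨r, hr0, hr⟩ := hr
    have h1 : w' = r ^ 2 * w := by
      rw [← hr, mul_assoc, inv_mul_cancel₀ hw, mul_one]
    unfold sB
    rw [h1, mul_pow, ← pow_mul, show 2 * (3 * T.N) = 6 * T.N by ring, pow6 hT hr0, one_mul]
  obtain ⟨j, hj, hwj⟩ := decomp hT hw
  obtain ⟨j', hj', hwj'⟩ := decomp hT hw'
  rw [hs] at hwj'
  have hh := hZ_ne (T := T) hw
  have hh' := hZ_ne (T := T) hw'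
  have hN := hZ_pow hT hw
  have hN' := hZ_pow hT hw'
  unfold colT at hc
  rw [hs] at hc
  set s := sB T w with hsdef
  set h := hZ T w with hhdef
  set h' := hZ T w' with hhdef'
  set X := x * h⁻¹ with hX
  set X' := x' * h'⁻¹ with hX'
  have hxX : x = h * X := by rw [hX]; field_simp
  have hxX' : x' = h' * X' := by rw [hX']; field_simp
  set y := X + sZ T s * (θZ T) ^ j with hy
  set y' := X' + sZ T s * (θZ T) ^ j' with hy'
  have hyy : h * y = h' * y' := by
    rw [hy, hy', mul_add, mul_add, ← hxX, ← hxX', ← hwj, ← hwj']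
    exact he
  set p := phiZ T s X with hp
  set p' := phiZ T s X' with hp'
  have e1 := entry hT s X hj
  rw [← hp, ← hy] at e1
  have hkey : key T p y = key T p' y' := by
    unfold key
    by_cases h0 : p = 0
    · have h0' : p' = 0 := by
        rw [h0, mul_zero] at hc
        exact (mul_eq_zero.1 hc.symm).resolve_left hh'
      rw [if_pos h0, if_pos h0']
      have : y ^ T.N = y' ^ T.N := by
        have h3 : (h * y) ^ T.N = (h' * y') ^ T.N := by rw [hyy]
        rwa [mul_pow, mul_pow, hN, hN', one_mul, one_mul] at h3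
      rw [this]
    · have h0' : p' ≠ 0 := by
        intro h0'
        rw [h0', mul_zero] at hc
        exact h0 ((mul_eq_zero.1 hc).resolve_left hh)
      rw [if_neg h0, if_neg h0']
      have h3 : p ^ T.N = p' ^ T.N := by
        have h3 : (h * p) ^ T.N = (h' * p') ^ T.N := by rw [hc]
        rwa [mul_pow, mul_pow, hN, hN', one_mul, one_mul] at h3
      have h4 : y * p ^ (T.q - 2) = y' * p' ^ (T.q - 2) := by
        rw [pow_sub_two hT h0, pow_sub_two hT h0']
        have h5 : y * p' = y' * p := by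
          apply mul_left_cancel₀ (mul_ne_zero hh hh')
          calc h * h' * (y * p') = (h * y) * (h' * p') := by ring
            _ = (h' * y') * (h * p) := by rw [hyy, hc]
            _ = h * h' * (y' * p) := by ring
        field_simp
        exact h5.trans (mul_comm _ _)
      rw [h3, h4]
  obtain ⟨hXX, hjj⟩ := inj_key hT s hj hj' hkey
  have hyy2 : y = y' := by rw [hy, hy', hXX, hjj]
  have hpp : p = p' := by rw [hp, hp', hXX]
  have hhh : h = h' := by
    by_cases h0 : p = 0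
    · have h1 := e1.1 h0
      have hy0 : y ≠ 0 := by
        intro hy0
        rw [hy0, zero_pow (by have := (nums hT).pos; omega)] at h1
        exact zero_ne_one h1
      rw [← hyy2] at hyy
      exact mul_right_cancel₀ hy0 hyy
    · rw [← hpp] at hc
      exact mul_right_cancel₀ h0 hc
  refine ⟨?_, ?_⟩
  · rw [hxX, hxX', hXX, hhh]
  · rw [hwj, hwj', hhh, hjj]

theorem missT (hT : T.Ok) {x w : ZMod T.q} (hw : w ≠ 0) (hc : colT T x w ≠ 0) :
    SQ (colT T x w) ∧ colT T x w ≠ x + w := by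
  obtain ⟨j, hj, hwj⟩ := decomp hT hw
  have hh := hZ_ne (T := T) hw
  have hSQ := hZ_SQ hT hw
  unfold colT at hc ⊢
  set s := sB T w with hsdef
  set h := hZ T w with hhdef
  set X := x * h⁻¹ with hX
  have hxX : x = h * X := by rw [hX]; field_simp
  have e1 := (entry hT s X hj).2.1
  have hp : phiZ T s X ≠ 0 := fun h0 => hc (by rw [h0, mul_zero])
  obtain ⟨h1, h2⟩ := e1 hp
  refine ⟨?_, ?_⟩
  · rw [← SQ_iff hT hp] at h1
    obtain ⟨a, ha, ha'⟩ := hSQ
    obtain ⟨b, hb, hb'⟩ := h1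
    exact ⟨a * b, mul_ne_zero ha hb, by rw [ha', hb']; ring⟩
  · intro h3
    apply h2
    apply mul_left_cancel₀ hh
    rw [h3, mul_add, ← hxX, ← hwj]

theorem shortT (hT : T.Ok) {x w : ZMod T.q} (hw : w ≠ 0) (hc : colT T x w = 0) : SQ (x + w) := by
  obtain ⟨j, hj, hwj⟩ := decomp hT hw
  have hh := hZ_ne (T := T) hw
  have hSQ := hZ_SQ hT hw
  unfold colT at hc
  set s := sB T w with hsdef
  set h := hZ T w with hhdef
  set X := x * h⁻¹ with hX
  have hxX : x = h * X := by rw [hX]; field_simp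
  have hp : phiZ T s X = 0 := (mul_eq_zero.1 hc).resolve_left hh
  have h1 := (entry hT s X hj).1 hp
  set y := X + sZ T s * (θZ T) ^ j with hy
  have hy0 : y ≠ 0 := by
    intro hy0
    rw [hy0, zero_pow (by have := (nums hT).pos; omega)] at h1
    exact zero_ne_one h1
  rw [← SQ_iff hT hy0] at h1
  have h2 : x + w = h * y := by
    rw [hy, mul_add, ← hxX, ← hwj]
  obtain ⟨a, ha, ha'⟩ := hSQ
  obtain ⟨b, hb, hb'⟩ := h1
  exact ⟨a * b, mul_ne_zero ha hb, by rw [h2, ha', hb']; ring⟩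

theorem neg_ratio {w w' : ZMod T.q} (h : SQ (w' * w⁻¹)) : SQ (-w' * (-w)⁻¹) := by
  have : -w' * (-w)⁻¹ = w' * w⁻¹ := by
    rw [inv_neg]
    ring
  rwa [this]

/-- **The base colourings given by a compact table.** -/
def base (hT : T.Ok) : Base (ZMod T.q) (θZ T) where
  col := fun δ x w => if δ then colT T x w else -colT T (-x) (-w)
  rot := by
    intro δ x w hw
    cases δ
    · simp only [Bool.false_eq_true, if_false]
      rw [← mul_neg, rotT hT]
    · simp only [if_true]
      exact rotT hT x w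
  inj := by
    intro δ x w x' w' hw hw' hr hc he
    cases δ
    · simp only [Bool.false_eq_true, if_false, neg_inj] at hc
      have h := injT hT (neg_ne_zero.2 hw) (neg_ne_zero.2 hw') (neg_ratio hr) hc
        (by rw [← neg_add, ← neg_add, he])
      exact ⟨neg_inj.1 h.1, neg_inj.1 h.2⟩
    · simp only [if_true] at hc
      exact injT hT hw hw' hr hc he
  miss := by
    intro δ x w hw hc
    cases δ
    · simp only [Bool.false_eq_true, if_false] at hc ⊢
      have h := missT hT (x := -x) (neg_ne_zero.2 hw) (by simpa using hc)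
      refine ⟨?_, ?_⟩
      · have : sg (ZMod T.q) false * -colT T (-x) (-w) = colT T (-x) (-w) := by
          simp [sg]
        unfold S
        rw [this]
        exact h.1
      · intro h3
        apply h.2
        rw [← neg_add, ← h3, neg_neg]
    · simp only [if_true] at hc ⊢
      have h := missT hT hw hc
      refine ⟨?_, h.2⟩
      unfold S
      simpa [sg] using h.1
  short := by
    intro δ x w hw hc
    cases δ
    · simp only [Bool.false_eq_true, if_false, neg_eq_zero] at hc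
      have h := shortT hT (x := -x) (neg_ne_zero.2 hw) hc
      have : sg (ZMod T.q) false * (x + w) = -x + -w := by
        simp [sg]
        ring
      unfold S
      rw [this]
      exact h
    · simp only [if_true] at hc
      have h := shortT hT hw hc
      unfold S
      simpa [sg] using h

end field

/-- **The family of orders given by a compact table.** -/
theorem good (hT : T.Ok) (d : ℕ) (hd : 1 ≤ d) : Good (T.q ^ d + 1) := by
  classical
  have hp : Fact T.q.Prime := ⟨hT.prime⟩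
  have hn := nums hT
  have h6 : T.q % 6 = 1 := by
    have := hn.q
    omega
  have h7 : 7 ≤ T.q := by
    have := hn.q
    have := hn.pos
    omega
  have : Finite (GaloisField T.q d) := inferInstance
  have : Fintype (GaloisField T.q d) := Fintype.ofFinite _
  have hcard : Fintype.card (GaloisField T.q d) = T.q ^ d := by
    rw [← Nat.card_eq_fintype_card]
    exact GaloisField.card T.q d (by omega)
  have h6' : T.q ^ d % 6 = 1 := by
    rw [Nat.pow_mod, h6]
    norm_num
  have h7' : 7 ≤ T.q ^ d := by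
    calc 7 ≤ T.q ^ 1 := by rwa [pow_one]
      _ ≤ T.q ^ d := Nat.pow_le_pow_right (by omega) hd
  have three : (3 : ZMod T.q) ≠ 0 := by
    intro h
    have h' : ((3 : ℕ) : ZMod T.q) = 0 := by exact_mod_cast h
    rw [ZMod.natCast_eq_zero_iff] at h'
    have := Nat.le_of_dvd (by norm_num) h'
    omega
  have := good_of (K := ZMod T.q) (F := GaloisField T.q d) (fld hT) (θZ T)
    (theta_root hT) three (base hT) (by rw [hcard]; exact h6') (by rw [hcard]; exact h7')
  rw [hcard] at this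
  exact this

end Tab2

end Pool.Agent.Helper63.SQS
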